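import Pool.Agent.Q134.NK.Z.All
import Pool.Agent.TH362.Neck.LowS

/-!
Fair splittings of blocks of integers by at most two cuts: `g(2,1) = 5`.
-/

set_option autoImplicit false

namespace Pool.Agent.Results.MP_9837da_co.GTwoOneFive

open Pool.Agent.H257R3.Neck
open Pool.Agent.TH362.Neck

/-- There is a colouring of the integers by five colours in which no block of consecutive integers
has a fair splitting by at most two cuts, and there is none by four colours: `g(2,1) = 5`. -/
theorem result : g 2 1 = 5 := by
  refine le_antisymm ?_ five_le
  unfold Pool.Agent.H257R3.Neck.g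
  exact iInf₂_le (5 : ℕ) Pool.Agent.Q134.NK.Z.avoidable5

end Pool.Agent.Results.MP_9837da_co.GTwoOneFive
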